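import Mathlib
import Pool.Agent.Helper259.Uniform

/-!
# Moduli heights and minimal heights in orbits

Everything is over `Qbar`, the algebraic numbers. Let `X ⊆ ℙⁿ` and `Y ⊆ ℙᵐ` be quasi-projective varieties
(locally closed subsets), let a group `G` act on `X` and let `π : X → Y` be a surjective morphism whose fibres
are the orbits of `G`; every geometric quotient has these properties. Then
`h (π x) ≍ inf_{g ∈ G} h (g x)` on `X`, with the absolute logarithmic Weil heights `h` of the two projective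
spaces. In particular this holds for `X = Rat_d`, `G = PGL_2` and every projective embedding of the moduli
space `M_d`.

Proof. The inequality `h (π x) ≤ C h (x) + C` holds because `π` is given by forms on finitely many open pieces
of `X`. For the other one, the points `x` of a piece with `π x = y` are the solutions of a system of polynomial
equations and inequations with parameter `y`; by the Nullstellensatz over the ultrapower of `Qbar` (the theorem
`Pool.Agent.Helper259.Uniform.uniform` of the starting files) a solvable system has a solution whose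
height is at most `C h (y) + C`. Finitely many systems are sufficient.
-/

set_option autoImplicit false

namespace Pool.Agent.Results.MP_216eb3_nt.MinimalHeightsH9

open MvPolynomial

/-- The field of the algebraic numbers. -/
abbrev Qbar : Type := AlgebraicClosure ℚ

/-- The points of the projective space of dimension `n` over `Qbar`. -/
abbrev PP (n : ℕ) : Type := Projectivization Qbar (Fin (n + 1) → Qbar)

/-- The number field generated by the coordinates of a vector. -/
noncomputable abbrev fieldOf {n : ℕ} (x : Fin (n + 1) → Qbar) : IntermediateField ℚ Qbar :=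
  IntermediateField.adjoin ℚ (Set.range x)

instance instNumberField {n : ℕ} (x : Fin (n + 1) → Qbar) : NumberField (fieldOf x) where
  to_charZero := inferInstance
  to_finiteDimensional := by
    have : Finite (Set.range x) := Set.finite_range x
    exact IntermediateField.finiteDimensional_adjoin fun y _ =>
      ((AlgebraicClosure.isAlgebraic ℚ).isAlgebraic y).isIntegral

/-- The absolute logarithmic Weil height of a point of projective space: the logarithmic height of a vector of
homogeneous coordinates `x`, relative to the number field `K = ℚ(x_0, …, x_n)`, divided by `[K : ℚ]`.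
(`Height.logHeight` is the sum over all places of `K` of the logarithms of the maximum of the normalised
absolute values of the coordinates.) -/
noncomputable def height {n : ℕ} (p : PP n) : ℝ :=
  Height.logHeight (fun i => (⟨p.rep i, IntermediateField.subset_adjoin ℚ _ (Set.mem_range_self i)⟩ :
    fieldOf p.rep)) / Module.finrank ℚ (fieldOf p.rep)

/-- `A ≍ B`: there are `c₁, c₂ > 0` and `c₃, c₄` with `c₁ A - c₃ ≤ B ≤ c₂ A + c₄`. -/
def Asymp {S : Type*} (A B : S → ℝ) : Prop :=
  ∃ c₁ c₂ c₃ c₄ : ℝ, 0 < c₁ ∧ 0 < c₂ ∧ ∀ s, c₁ * A s - c₃ ≤ B s ∧ B s ≤ c₂ * A s + c₄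

/-- Zariski closed subsets of projective space: the common zeros of a set of forms. -/
def ZariskiClosed {n : ℕ} (Z : Set (PP n)) : Prop :=
  ∃ S : Set (MvPolynomial (Fin (n + 1)) Qbar), (∀ F ∈ S, ∃ e : ℕ, F.IsHomogeneous e) ∧
    Z = {p : PP n | ∀ F ∈ S, eval p.rep F = 0}

/-- Quasi-projective varieties: the differences of two Zariski closed subsets of a projective space. -/
def QuasiProjective {n : ℕ} (X : Set (PP n)) : Prop :=
  ∃ Z W : Set (PP n), ZariskiClosed Z ∧ ZariskiClosed W ∧ X = Z \ W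

/-- `π : X → Y` is a morphism: for each point `p` of `X` there are a Zariski open neighbourhood
(the complement of a closed set `W`) and forms `F_0, …, F_m` of the same degree such that
`π q = [F_0 (q) : … : F_m (q)]` for the points `q` of `X` in this neighbourhood. -/
def IsMorphism {n m : ℕ} {X : Set (PP n)} {Y : Set (PP m)} (π : X → Y) : Prop :=
  ∀ p : X, ∃ W : Set (PP n), ZariskiClosed W ∧ (p : PP n) ∉ W ∧
    ∃ (e : ℕ) (F : Fin (m + 1) → MvPolynomial (Fin (n + 1)) Qbar), (∀ i, (F i).IsHomogeneous e) ∧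
      ∀ q : X, (q : PP n) ∉ W → ∃ h : (fun i => eval (q : PP n).rep (F i)) ≠ 0,
        (π q : PP m) = Projectivization.mk Qbar (fun i => eval (q : PP n).rep (F i)) h

/-! ### Rational maps of degree `d` -/

/-- The values `(A (u, v), B (u, v))` of the pair of binary forms `A = ∑ a_i X ^ i Y ^ (d - i)`,
`B = ∑ b_i X ^ i Y ^ (d - i)` with the coefficient vector `x = (a_0, …, a_d, b_0, …, b_d)`. -/
noncomputable def values (d : ℕ) (x : Fin (2 * d + 1 + 1) → Qbar) (z : Fin 2 → Qbar) : Fin 2 → Qbar :=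
  ![∑ i : Fin (d + 1), x ⟨i, by omega⟩ * z 0 ^ (i : ℕ) * z 1 ^ (d - i : ℕ),
    ∑ i : Fin (d + 1), x ⟨d + 1 + i, by omega⟩ * z 0 ^ (i : ℕ) * z 1 ^ (d - i : ℕ)]

/-- `Rat_d ⊆ ℙ^(2 d + 1)`: the pairs `[a_0 : … : a_d : b_0 : … : b_d]` of binary forms of degree `d`
without common zero on the projective line. -/
def Rat (d : ℕ) : Set (PP (2 * d + 1)) := {f | ∀ z : PP 1, values d f.rep z.rep ≠ 0}

/-- The map `f : ℙ¹ → ℙ¹` of degree `d` given by a point of `Rat_d`. -/
noncomputable def mapOf {d : ℕ} (f : Rat d) (z : PP 1) : PP 1 :=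
  Projectivization.mk Qbar (values d (f : PP (2 * d + 1)).rep z.rep) (f.2 z)

/-- `φ ∘ g = f ∘ φ` as maps `ℙ¹ → ℙ¹`, for some `φ` in `PGL_2 (Qbar)`, i.e. `g = f ^ φ`. The maps `g` with
`Conjugate f g` are the elements of the orbit of `f` under `PGL_2 (Qbar)`. -/
def Conjugate {d : ℕ} (f g : Rat d) : Prop :=
  ∃ φ : (Fin 2 → Qbar) ≃ₗ[Qbar] (Fin 2 → Qbar), ∀ z : PP 1,
    Projectivization.map φ.toLinearMap φ.injective (mapOf g z) =
      mapOf f (Projectivization.map φ.toLinearMap φ.injective z)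

/-! ### Heights and forms at representatives -/

open Pool.Agent.Helper259.AbsHt (absLogHeight absLogHeight_smul absLogHeight_eval absLogHeight_le_sum
  aff_le_of_eq_one absLogHeight_nonneg)
open Pool.Agent.Helper259.Uniform (h1 h1_nonneg uniform)

theorem height_eq {n : ℕ} (p : PP n) : height p = absLogHeight p.rep := rfl

theorem height_nonneg {n : ℕ} (p : PP n) : 0 ≤ height p := absLogHeight_nonneg _

theorem height_mk {n : ℕ} (x : Fin (n + 1) → Qbar) (hx : x ≠ 0) :
    height (Projectivization.mk Qbar x hx : PP n) = absLogHeight x := by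
  obtain ⟨a, ha⟩ := Projectivization.exists_smul_eq_mk_rep Qbar x hx
  rw [height_eq, ← ha]
  exact absLogHeight_smul x a.ne_zero

/-- The height may be computed with any homogeneous coordinates in any number field. -/
theorem height_mk_numberField {n : ℕ} (L : Type*) [Field L] [NumberField L] (φ : L →+* Qbar)
    (y : Fin (n + 1) → L) (hy : (fun i => φ (y i)) ≠ 0) :
    height (Projectivization.mk Qbar (fun i => φ (y i)) hy : PP n) =
      Height.logHeight y / Module.finrank ℚ L := by
  rw [height_mk]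
  exact Pool.Agent.Helper259.AbsHt.absLogHeight_eq L φ y

theorem eval_smul' {n : ℕ} {F : MvPolynomial (Fin (n + 1)) Qbar} {d : ℕ} (hF : F.IsHomogeneous d)
    (c : Qbar) (x : Fin (n + 1) → Qbar) : eval (c • x) F = c ^ d * eval x F := by
  rw [eval_eq', eval_eq', Finset.mul_sum]
  refine Finset.sum_congr rfl fun s hs => ?_
  have hdeg : ∑ i, s i = d := by
    have h := hF (mem_support_iff.mp hs)
    have h2 : Finsupp.degree s = d := by
      rw [← h, Finsupp.degree_eq_weight_one]; rfl
    rw [← h2, Finsupp.degree_eq_sum]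
  simp only [Pi.smul_apply, smul_eq_mul, mul_pow]
  rw [Finset.prod_mul_distrib, Finset.prod_pow_eq_pow_sum, hdeg]
  ring

theorem mk_rep_eq {n : ℕ} (x : Fin (n + 1) → Qbar) (hx : x ≠ 0) :
    ∃ a : Qbar, a ≠ 0 ∧ (Projectivization.mk Qbar x hx : PP n).rep = a • x := by
  obtain ⟨a, ha⟩ := Projectivization.exists_smul_eq_mk_rep Qbar x hx
  exact ⟨a, a.ne_zero, ha.symm⟩

theorem eval_rep_eq_zero_iff {n : ℕ} {F : MvPolynomial (Fin (n + 1)) Qbar} {d : ℕ} (hF : F.IsHomogeneous d)
    (x : Fin (n + 1) → Qbar) (hx : x ≠ 0) :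
    eval (Projectivization.mk Qbar x hx : PP n).rep F = 0 ↔ eval x F = 0 := by
  obtain ⟨a, ha, e⟩ := mk_rep_eq x hx
  rw [e, eval_smul' hF]
  simp [ha]

/-- normalised coordinates -/
theorem exists_norm {n : ℕ} (p : PP n) : ∃ (j : Fin (n + 1)) (x : Fin (n + 1) → Qbar) (hx : x ≠ 0) (c : Qbar),
    c ≠ 0 ∧ x j = 1 ∧ p.rep = c • x ∧ p = Projectivization.mk Qbar x hx := by
  obtain ⟨j, hj⟩ : ∃ j, p.rep j ≠ 0 := by
    by_contra h
    push Not at h
    exact p.rep_nonzero (funext h)
  have hx : (p.rep j)⁻¹ • p.rep ≠ 0 := smul_ne_zero (inv_ne_zero hj) p.rep_nonzero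
  refine ⟨j, (p.rep j)⁻¹ • p.rep, hx, p.rep j, hj, ?_, ?_, ?_⟩
  · simp [hj]
  · rw [smul_smul, mul_inv_cancel₀ hj, one_smul]
  · conv_lhs => rw [← p.mk_rep]
    rw [Projectivization.mk_eq_mk_iff']
    exact ⟨p.rep j, by rw [smul_smul, mul_inv_cancel₀ hj, one_smul]⟩

/-! ### Finitely many forms are enough -/

theorem finite_forms {n : ℕ} (S : Set (MvPolynomial (Fin (n + 1)) Qbar)) :
    ∃ S' : Finset (MvPolynomial (Fin (n + 1)) Qbar), ↑S' ⊆ S ∧ ∀ x : Fin (n + 1) → Qbar,
      (∀ F ∈ S', eval x F = 0) → ∀ F ∈ S, eval x F = 0 := by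
  obtain ⟨S', hS', h⟩ := (Submodule.fg_span_iff_fg_span_finset_subset
    (R := MvPolynomial (Fin (n + 1)) Qbar) S).1 (IsNoetherian.noetherian _)
  refine ⟨S', hS', fun x hx F hF => ?_⟩
  have h1 : F ∈ Submodule.span (MvPolynomial (Fin (n + 1)) Qbar) (S' : Set _) := by
    rw [← h]
    exact Submodule.subset_span hF
  have h2 : Submodule.span (MvPolynomial (Fin (n + 1)) Qbar) (S' : Set _) ≤ RingHom.ker (eval x) := by
    rw [Submodule.span_le]
    intro G hG
    exact hx G hG
  exact h2 h1


/-! ### One direction: heights of values of morphisms -/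

/-- the local description of a morphism on a quasi-projective variety, by basic open sets -/
theorem local_forms {n m : ℕ} {X : Set (PP n)} (hX : QuasiProjective X) {Y : Set (PP m)} {π : X → Y}
    (hπ : IsMorphism π) :
    ∃ (S : Finset (MvPolynomial (Fin (n + 1)) Qbar)), (∀ G ∈ S, ∃ e : ℕ, G.IsHomogeneous e) ∧
      (∀ p ∈ X, ∀ G ∈ S, eval p.rep G = 0) ∧
      ∃ (N : ℕ) (g : Fin N → MvPolynomial (Fin (n + 1)) Qbar) (e : Fin N → ℕ)
        (F : Fin N → Fin (m + 1) → MvPolynomial (Fin (n + 1)) Qbar),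
        (∀ k, ∃ a : ℕ, (g k).IsHomogeneous a) ∧ (∀ k i, (F k i).IsHomogeneous (e k)) ∧
        (∀ p ∈ X, ∃ k, eval p.rep (g k) ≠ 0) ∧
        ∀ k, ∀ p : PP n, (∀ G ∈ S, eval p.rep G = 0) → eval p.rep (g k) ≠ 0 →
          ∃ hp : p ∈ X, ∃ h : (fun i => eval p.rep (F k i)) ≠ 0,
            (π ⟨p, hp⟩ : PP m) = Projectivization.mk Qbar (fun i => eval p.rep (F k i)) h := by
  classical
  obtain ⟨Z, W, ⟨S, hS, rfl⟩, ⟨T, hT, rfl⟩, rfl⟩ := hX
  obtain ⟨S', hS', hS''⟩ := finite_forms S
  have hG : ∀ p : ({p : PP n | ∀ F ∈ S, eval p.rep F = 0} \ {p : PP n | ∀ F ∈ T, eval p.rep F = 0} : Set (PP n)),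
      ∃ (g : MvPolynomial (Fin (n + 1)) Qbar) (e : ℕ) (F : Fin (m + 1) → MvPolynomial (Fin (n + 1)) Qbar),
        (∃ a : ℕ, g.IsHomogeneous a) ∧ (∀ i, (F i).IsHomogeneous e) ∧ eval (p : PP n).rep g ≠ 0 ∧
        ∀ q : PP n, (∀ G ∈ S', eval q.rep G = 0) → eval q.rep g ≠ 0 →
          ∃ hq : q ∈ ({p : PP n | ∀ F ∈ S, eval p.rep F = 0} \ {p : PP n | ∀ F ∈ T, eval p.rep F = 0} : Set (PP n)),
            ∃ h : (fun i => eval q.rep (F i)) ≠ 0,
            (π ⟨q, hq⟩ : PP m) = Projectivization.mk Qbar (fun i => eval q.rep (F i)) h := by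
    intro p
    obtain ⟨W, ⟨T', hT', rfl⟩, hpW, e, F, hF, hloc⟩ := hπ p
    have h1 := p.2.2
    simp only [Set.mem_ofPred_eq, not_forall] at h1 hpW
    obtain ⟨G1, hG1, hG1'⟩ := h1
    obtain ⟨G2, hG2, hG2'⟩ := hpW
    obtain ⟨a1, ha1⟩ := hT G1 hG1
    obtain ⟨a2, ha2⟩ := hT' G2 hG2
    refine ⟨G1 * G2, e, F, ⟨a1 + a2, ha1.mul ha2⟩, hF, ?_, fun q hq hq' => ?_⟩
    · rw [map_mul]
      exact mul_ne_zero hG1' hG2'
    · rw [map_mul] at hq'
      have hqX : q ∈ ({p : PP n | ∀ F ∈ S, eval p.rep F = 0} \ {p : PP n | ∀ F ∈ T, eval p.rep F = 0} : Set (PP n)) := by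
        refine ⟨fun F hF => hS'' _ hq F hF, fun h => ?_⟩
        exact left_ne_zero_of_mul hq' (h G1 hG1)
      refine ⟨hqX, hloc ⟨q, hqX⟩ fun h => ?_⟩
      exact right_ne_zero_of_mul hq' (h G2 hG2)
  choose g e F hg hF hgp hloc using hG
  obtain ⟨T', hT', hT''⟩ := finite_forms (Set.range g)
  choose r hr using fun G : T' => hT' G.2
  refine ⟨S', fun G hG => hS G (hS' hG), fun p hp G hG => hp.1 G (hS' hG), T'.card,
    fun k => T'.equivFin.symm k, fun k => e (r (T'.equivFin.symm k)), fun k => F (r (T'.equivFin.symm k)),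
    fun k => ?_, fun k i => hF _ i, fun p hp => ?_, fun k p h1 h2 => ?_⟩
  · obtain ⟨a, ha⟩ := hg (r (T'.equivFin.symm k))
    exact ⟨a, by rw [hr] at ha; exact ha⟩
  · by_contra hcon
    push Not at hcon
    have h3 : ∀ G ∈ T', eval p.rep G = 0 := fun G hG => by
      have := hcon (T'.equivFin ⟨G, hG⟩)
      rwa [Equiv.symm_apply_apply] at this
    exact hgp ⟨p, hp⟩ (hT'' p.rep h3 _ ⟨⟨p, hp⟩, rfl⟩)
  · refine hloc (r (T'.equivFin.symm k)) p h1 ?_
    rw [hr]
    exact h2

theorem height_morphism {n m : ℕ} {X : Set (PP n)} (hX : QuasiProjective X) {Y : Set (PP m)} {π : X → Y}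
    (hπ : IsMorphism π) :
    ∃ C : ℝ, 0 < C ∧ ∀ x : X, height (π x : PP m) ≤ C * height (x : PP n) + C := by
  obtain ⟨S, -, hS, N, g, e, F, -, hF, hcov, hloc⟩ := local_forms hX hπ
  choose C hC using fun k => absLogHeight_eval (e k) (F k) (hF k)
  refine ⟨1 + ∑ k, (|C k| + e k), by positivity, fun x => ?_⟩
  obtain ⟨k, hk⟩ := hcov x x.2
  obtain ⟨hp, h, heq⟩ := hloc k x (hS x x.2) hk
  have h1 : (π x : PP m) = _ := heq
  rw [h1, height_mk]
  have h2 := hC k (x : PP n).rep
  have h3 : |C k| + e k ≤ ∑ k, (|C k| + (e k : ℝ)) :=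
    Finset.single_le_sum (f := fun k => |C k| + (e k : ℝ)) (fun i _ => by positivity) (Finset.mem_univ k)
  have h4 := height_nonneg (x : PP n)
  have h5 : C k ≤ |C k| := le_abs_self _
  have h6 : (0 : ℝ) ≤ e k := Nat.cast_nonneg _
  have h7 := abs_nonneg (C k)
  rw [← height_eq] at h2
  nlinarith


/-! ### The other direction: small points in the fibres -/

theorem prop_iff {k : ℕ} (u v : Fin (k + 1) → Qbar) (i₀ : Fin (k + 1)) (hv : v i₀ = 1) :
    (∀ a b, u a * v b = u b * v a) ↔ u = u i₀ • v := by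
  constructor
  · intro h
    funext a
    have := h a i₀
    rw [hv, mul_one] at this
    simpa using this
  · intro h a b
    rw [h]
    simp only [Pi.smul_apply, smul_eq_mul]
    ring

theorem small_point {n m : ℕ} {X : Set (PP n)} (hX : QuasiProjective X) {Y : Set (PP m)} {π : X → Y}
    (hπ : IsMorphism π) :
    ∃ C : ℝ, 0 < C ∧ ∀ x : X, ∃ x' : X, π x' = π x ∧
      height (x' : PP n) ≤ C * height (π x : PP m) + C := by
  classical
  obtain ⟨S, hSh, hS, N, g, e, F, hg, hF, hcov, hloc⟩ := local_forms hX hπ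
  -- the systems
  let sys : Fin N → Fin (n + 1) → Fin (m + 1) → Set (MvPolynomial (Fin (m + 1) ⊕ Fin (n + 1)) Qbar) :=
    fun k j _ => ((rename Sum.inr) '' (S : Set (MvPolynomial (Fin (n + 1)) Qbar))) ∪ {MvPolynomial.X (Sum.inr j) - 1} ∪
      Set.range (fun ab : Fin (m + 1) × Fin (m + 1) =>
        rename Sum.inr (F k ab.1) * MvPolynomial.X (Sum.inl ab.2) -
          rename Sum.inr (F k ab.2) * MvPolynomial.X (Sum.inl ab.1))
  have hsys : ∀ k j l, (sys k j l).Finite := fun k j l =>
    ((S.finite_toSet.image _).union (Set.finite_singleton _)).union (Set.finite_range _)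
  choose C hC hCs using fun k j l => uniform (sys k j l) (hsys k j l)
    (rename Sum.inr (g k) * rename Sum.inr (F k l))
  have hev : ∀ (y : Fin (m + 1) → Qbar) (x : Fin (n + 1) → Qbar) (p : MvPolynomial (Fin (n + 1)) Qbar),
      eval (Sum.elim y x) (rename Sum.inr p) = eval x p := by
    intro y x p
    rw [eval_rename]
    rfl
  have hsol : ∀ k j l (y : Fin (m + 1) → Qbar) (x : Fin (n + 1) → Qbar),
      (∀ f ∈ sys k j l, eval (Sum.elim y x) f = 0) ↔
        (∀ G ∈ S, eval x G = 0) ∧ x j = 1 ∧ ∀ a b, eval x (F k a) * y b = eval x (F k b) * y a := by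
    intro k j l y x
    constructor
    · intro h
      refine ⟨fun G hG => ?_, ?_, fun a b => ?_⟩
      · rw [← hev y x G]
        exact h _ (Or.inl (Or.inl ⟨G, hG, rfl⟩))
      · have := h _ (Or.inl (Or.inr rfl))
        rw [map_sub, eval_X, map_one, sub_eq_zero] at this
        exact this
      · have := h _ (Or.inr ⟨(a, b), rfl⟩)
        rw [map_sub, map_mul, map_mul, hev, hev, eval_X, eval_X, sub_eq_zero] at this
        exact this
    · rintro ⟨h1, h2, h3⟩ f ((⟨G, hG, rfl⟩ | hf) | ⟨ab, rfl⟩)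
      · rw [hev]
        exact h1 G hG
      · rw [Set.mem_singleton_iff] at hf
        rw [hf, map_sub, eval_X, map_one, sub_eq_zero]
        exact h2
      · show eval (Sum.elim y x) (_ - _) = 0
        rw [map_sub, map_mul, map_mul, hev, hev, eval_X, eval_X, sub_eq_zero]
        exact h3 _ _
  obtain ⟨K, hK⟩ : ∃ K : ℝ, K = ∑ k, ∑ j, ∑ l, C k j l := ⟨_, rfl⟩
  have hK0 : 0 ≤ K := by
    rw [hK]
    exact Finset.sum_nonneg fun k _ => Finset.sum_nonneg fun j _ => Finset.sum_nonneg fun l _ => hC k j l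
  have hKle : ∀ k j l, C k j l ≤ K := by
    intro k j l
    rw [hK]
    refine le_trans ?_ (Finset.single_le_sum (f := fun k => ∑ j, ∑ l, C k j l)
      (fun k _ => Finset.sum_nonneg fun j _ => Finset.sum_nonneg fun l _ => hC k j l) (Finset.mem_univ k))
    refine le_trans ?_ (Finset.single_le_sum (f := fun j => ∑ l, C k j l)
      (fun j _ => Finset.sum_nonneg fun l _ => hC k j l) (Finset.mem_univ j))
    exact Finset.single_le_sum (f := fun l => C k j l) (fun l _ => hC k j l) (Finset.mem_univ l)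
  refine ⟨(n + 1) * (K + 1) * (m + 1), by positivity, fun x => ?_⟩
  obtain ⟨k, hk⟩ := hcov x x.2
  obtain ⟨_, h, heq⟩ := hloc k x (hS x x.2) hk
  have heq' : (π x : PP m) = _ := heq
  obtain ⟨j, x0, hx0, c, hc, hj, hrep, hmk⟩ := exists_norm (x : PP n)
  obtain ⟨l, y, hy, c', hc', hl, hrep', hmk'⟩ := exists_norm (π x : PP m)
  -- the given point solves the system
  have hval : ∃ a : Qbar, a ≠ 0 ∧ (fun i => eval x0 (F k i)) = a • y := by
    obtain ⟨a, ha, hae⟩ := mk_rep_eq _ h
    rw [← heq', hrep'] at hae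
    have h1 : (fun i => eval (x : PP n).rep (F k i)) = c ^ (e k) • fun i => eval x0 (F k i) := by
      funext i
      rw [hrep, eval_smul' (hF k i)]
      rfl
    rw [h1, smul_smul] at hae
    have h2 : a * c ^ (e k) ≠ 0 := mul_ne_zero ha (pow_ne_zero _ hc)
    refine ⟨(a * c ^ (e k))⁻¹ * c', mul_ne_zero (inv_ne_zero h2) hc', ?_⟩
    rw [mul_smul, hae, smul_smul, inv_mul_cancel₀ h2, one_smul]
  obtain ⟨a, ha, hval⟩ := hval
  have hFl : eval x0 (F k l) ≠ 0 := by
    have := congrFun hval l
    simp only [Pi.smul_apply, smul_eq_mul, hl, mul_one] at this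
    rw [this]
    exact ha
  have hg0 : eval x0 (g k) ≠ 0 := by
    obtain ⟨b, hb⟩ := hg k
    rw [hmk] at hk
    intro h0
    exact hk ((eval_rep_eq_zero_iff hb x0 hx0).2 h0)
  obtain ⟨x1, hx1, hx1g, hx1h⟩ := hCs k j l y ⟨x0, by
    rw [hsol k j l]
    refine ⟨fun G hG => ?_, hj, ?_⟩
    · obtain ⟨b, hb⟩ := hSh G hG
      rw [← eval_rep_eq_zero_iff hb x0 hx0, ← hmk]
      exact hS x x.2 G hG
    · have hl' : eval x0 (F k l) = a := by
        have := congrFun hval l
        simp only [Pi.smul_apply, smul_eq_mul, hl, mul_one] at this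
        exact this
      exact (prop_iff (fun i => eval x0 (F k i)) y l hl).2 (by rw [hl']; exact hval), by
    rw [map_mul, hev, hev]
    exact mul_ne_zero hg0 hFl⟩
  rw [hsol k j l] at hx1
  obtain ⟨hS1, hj1, hprop⟩ := hx1
  rw [map_mul, hev, hev] at hx1g
  have hx1ne : x1 ≠ 0 := by
    intro h0
    rw [h0] at hj1
    simp at hj1
  have hFl1 : eval x1 (F k l) ≠ 0 := right_ne_zero_of_mul hx1g
  have hp := (prop_iff (fun i => eval x1 (F k i)) y l hl).1 hprop
  obtain ⟨hp1, hne1, heq1⟩ := hloc k (Projectivization.mk Qbar x1 hx1ne) (fun G hG => by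
    obtain ⟨b, hb⟩ := hSh G hG
    rw [eval_rep_eq_zero_iff hb]
    exact hS1 G hG) (by
    obtain ⟨b, hb⟩ := hg k
    rw [Ne, eval_rep_eq_zero_iff hb]
    exact left_ne_zero_of_mul hx1g)
  refine ⟨⟨_, hp1⟩, ?_, ?_⟩
  · apply Subtype.ext
    rw [heq1, hmk', Projectivization.mk_eq_mk_iff']
    obtain ⟨b, hb, hbe⟩ := mk_rep_eq x1 hx1ne
    refine ⟨b ^ (e k) * eval x1 (F k l), ?_⟩
    funext i
    rw [hbe, eval_smul' (hF k i)]
    have := congrFun hp i
    simp only [Pi.smul_apply, smul_eq_mul] at this ⊢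
    rw [this]
    ring
  · show height (Projectivization.mk Qbar x1 hx1ne : PP n) ≤ _
    rw [height_mk]
    have h2 := absLogHeight_le_sum x1
    have h3 : ∀ i, absLogHeight ![1, x1 i] ≤ K * (1 + ∑ a, h1 (y a)) := by
      intro i
      refine (hx1h i).trans ?_
      refine mul_le_mul_of_nonneg_right (hKle k j l) ?_
      have := Finset.sum_nonneg fun (a : Fin (m + 1)) (_ : a ∈ Finset.univ) => h1_nonneg (y a)
      positivity
    have h4 : ∀ i, h1 (y i) ≤ height (π x : PP m) := by
      intro i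
      rw [hmk', height_mk]
      exact aff_le_of_eq_one y l hl i
    have h5 : ∑ a, h1 (y a) ≤ (m + 1) * height (π x : PP m) := by
      refine (Finset.sum_le_sum fun a _ => h4 a).trans (le_of_eq ?_)
      rw [Finset.sum_const, Finset.card_univ, Fintype.card_fin, nsmul_eq_mul]
      push_cast
      ring
    have h6 : ∑ i, absLogHeight ![1, x1 i] ≤ (n + 1) * (K * (1 + ∑ a, h1 (y a))) := by
      refine (Finset.sum_le_sum fun a _ => h3 a).trans (le_of_eq ?_)
      rw [Finset.sum_const, Finset.card_univ, Fintype.card_fin, nsmul_eq_mul]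
      push_cast
      ring
    have h7 := height_nonneg (π x : PP m)
    have h8 : K * (1 + ∑ a, h1 (y a)) ≤ (K + 1) * (1 + (m + 1) * height (π x : PP m)) := by
      have : 0 ≤ ∑ a, h1 (y a) := Finset.sum_nonneg fun (a : Fin (m + 1)) _ => h1_nonneg (y a)
      nlinarith
    calc absLogHeight x1 ≤ (n + 1) * (K * (1 + ∑ a, h1 (y a))) := h2.trans h6
      _ ≤ (n + 1) * ((K + 1) * (1 + (m + 1) * height (π x : PP m))) := by gcongr
      _ ≤ (n + 1) * ((K + 1) * ((m + 1) + (m + 1) * height (π x : PP m))) := by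
          gcongr
          have : (0 : ℝ) ≤ m := Nat.cast_nonneg _
          linarith
      _ = _ := by ring

/-! ### `Rat_d` is quasi-projective -/

/-- the determinant of a matrix of linear forms -/
theorem det_homog {σ R : Type*} [CommRing R] {N : ℕ} (M : Matrix (Fin N) (Fin N) (MvPolynomial σ R))
    (h : ∀ i j, (M i j).IsHomogeneous 1) : M.det.IsHomogeneous N := by
  rw [Matrix.det_apply]
  refine IsHomogeneous.sum _ _ _ fun τ _ => ?_
  have h1 : (∏ i, M (τ i) i).IsHomogeneous N := by
    have := IsHomogeneous.prod Finset.univ (fun i => M (τ i) i) (fun _ => 1) fun i _ => h _ _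
    simpa using this
  rcases Int.units_eq_one_or (Equiv.Perm.sign τ) with hs | hs
  · rw [hs, one_smul]; exact h1
  · rw [hs]
    have : ((-1 : ℤˣ) • ∏ i, M (τ i) i) = - ∏ i, M (τ i) i := by
      rw [Units.smul_def]; simp
    rw [this]
    exact h1.neg

/-- the polynomial `∑ x_(s + i) T ^ i` -/
noncomputable def pol {R : Type*} [Semiring R] (d s : ℕ) (hs : s ≤ d + 1) (x : Fin (2 * d + 1 + 1) → R) :
    Polynomial R :=
  ∑ i : Fin (d + 1), Polynomial.monomial (i : ℕ) (x ⟨s + i, by omega⟩)

theorem pol_map {R R' : Type*} [Semiring R] [Semiring R'] (φ : R →+* R') (d s : ℕ) (hs : s ≤ d + 1)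
    (x : Fin (2 * d + 1 + 1) → R) : (pol d s hs x).map φ = pol d s hs fun i => φ (x i) := by
  rw [pol, pol, Polynomial.map_sum]
  exact Finset.sum_congr rfl fun i _ => Polynomial.map_monomial _

theorem pol_coeff {R : Type*} [Semiring R] (d s : ℕ) (hs : s ≤ d + 1) (x : Fin (2 * d + 1 + 1) → R) (k : ℕ) :
    (pol d s hs x).coeff k = if h : k < d + 1 then x ⟨s + k, by omega⟩ else 0 := by
  rw [pol, Polynomial.finsetSum_coeff]
  simp only [Polynomial.coeff_monomial]
  split_ifs with h
  · rw [Finset.sum_eq_single (⟨k, h⟩ : Fin (d + 1))]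
    · simp
    · intro b _ hb
      rw [if_neg]
      intro h2
      exact hb (Fin.ext h2)
    · intro h2
      exact absurd (Finset.mem_univ _) h2
  · refine Finset.sum_eq_zero fun i _ => ?_
    rw [if_neg]
    have := i.2
    omega

theorem pol_natDegree {R : Type*} [Semiring R] (d s : ℕ) (hs : s ≤ d + 1) (x : Fin (2 * d + 1 + 1) → R) :
    (pol d s hs x).natDegree ≤ d := by
  rw [Polynomial.natDegree_le_iff_coeff_eq_zero]
  intro k hk
  rw [pol_coeff, dif_neg (by omega)]

theorem pol_eval {R : Type*} [CommSemiring R] (d s : ℕ) (hs : s ≤ d + 1) (x : Fin (2 * d + 1 + 1) → R) (t : R) :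
    (pol d s hs x).eval t = ∑ i : Fin (d + 1), x ⟨s + i, by omega⟩ * t ^ (i : ℕ) := by
  rw [pol, Polynomial.eval_finsetSum]
  exact Finset.sum_congr rfl fun i _ => Polynomial.eval_monomial

/-- the resultant of the two forms, as a polynomial in the coefficients -/
noncomputable def resForm (d : ℕ) : MvPolynomial (Fin (2 * d + 1 + 1)) Qbar :=
  Polynomial.resultant (pol d 0 (by omega) fun i => X i) (pol d (d + 1) le_rfl fun i => X i) d d

theorem resForm_homog (d : ℕ) : (resForm d).IsHomogeneous (d + d) := by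
  refine det_homog _ fun i j => ?_
  have hc : ∀ (s : ℕ) (hs : s ≤ d + 1) (k : ℕ), ((pol d s hs fun i => (X i : MvPolynomial (Fin (2 * d + 1 + 1))
      Qbar)).coeff k).IsHomogeneous 1 := by
    intro s hs k
    rw [pol_coeff]
    split_ifs
    · exact isHomogeneous_X _ _
    · exact isHomogeneous_zero _ _ _
  rw [Polynomial.sylvester, Matrix.of_apply]
  induction j using Fin.addCases with
  | left j =>
    rw [Fin.addCases_left]
    split_ifs
    · exact hc _ _ _
    · exact isHomogeneous_zero _ _ _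
  | right j =>
    rw [Fin.addCases_right]
    split_ifs
    · exact hc _ _ _
    · exact isHomogeneous_zero _ _ _

theorem eval_resForm (d : ℕ) (x : Fin (2 * d + 1 + 1) → Qbar) :
    eval x (resForm d) = Polynomial.resultant (pol d 0 (by omega) x) (pol d (d + 1) le_rfl x) d d := by
  have h : (fun i : Fin (2 * d + 1 + 1) => eval x (X i : MvPolynomial (Fin (2 * d + 1 + 1)) Qbar)) = x := by
    funext i
    exact eval_X i
  rw [resForm, ← Polynomial.resultant_map_map, pol_map, pol_map, h]

theorem values_smul (d : ℕ) (x : Fin (2 * d + 1 + 1) → Qbar) (z : Fin 2 → Qbar) (c : Qbar) :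
    values d x (c • z) = c ^ d • values d x z := by
  have key : ∀ (a : Fin (d + 1) → Qbar), ∑ i : Fin (d + 1), a i * (c • z) 0 ^ (i : ℕ) * (c • z) 1 ^ (d - i : ℕ) =
      c ^ d * ∑ i : Fin (d + 1), a i * z 0 ^ (i : ℕ) * z 1 ^ (d - i : ℕ) := by
    intro a
    rw [Finset.mul_sum]
    refine Finset.sum_congr rfl fun i _ => ?_
    have hi : c ^ d = c ^ (i : ℕ) * c ^ (d - i : ℕ) := by
      rw [← pow_add]
      congr 1
      have := i.2
      omega
    simp only [Pi.smul_apply, smul_eq_mul, mul_pow]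
    rw [hi]
    ring
  funext j
  fin_cases j
  · exact key _
  · exact key _

theorem values_one (d : ℕ) (x : Fin (2 * d + 1 + 1) → Qbar) (t : Qbar) :
    values d x ![t, 1] = ![(pol d 0 (by omega) x).eval t, (pol d (d + 1) le_rfl x).eval t] := by
  rw [values, pol_eval, pol_eval]
  congr 1
  · refine Finset.sum_congr rfl fun i _ => ?_
    simp
  · congr 1
    refine Finset.sum_congr rfl fun i _ => ?_
    simp

theorem values_inf (d : ℕ) (x : Fin (2 * d + 1 + 1) → Qbar) :
    values d x ![1, 0] = ![x ⟨0 + d, by omega⟩, x ⟨d + 1 + d, by omega⟩] := by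
  have key : ∀ (a : Fin (d + 1) → Qbar), ∑ i : Fin (d + 1), a i * (1 : Qbar) ^ (i : ℕ) * (0 : Qbar) ^ (d - i : ℕ) =
      a ⟨d, by omega⟩ := by
    intro a
    rw [Finset.sum_eq_single (⟨d, by omega⟩ : Fin (d + 1))]
    · simp
    · intro i _ hi
      have h1 : (i : ℕ) ≠ d := fun h => hi (Fin.ext h)
      have := i.2
      rw [zero_pow (by omega), mul_zero]
    · intro h
      exact absurd (Finset.mem_univ _) h
  funext j
  fin_cases j
  · have := key (fun i => x ⟨i, by omega⟩)
    simpa [values] using this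
  · have := key (fun i => x ⟨d + 1 + i, by omega⟩)
    simpa [values] using this

theorem rat_iff (d : ℕ) (hd : 0 < d) (f : PP (2 * d + 1)) :
    f ∈ Rat d ↔ eval f.rep (resForm d) ≠ 0 := by
  have h0 : ∀ z : Fin 2 → Qbar, z ≠ 0 → values d f.rep z = 0 → f ∉ Rat d := by
    intro z hz h hf
    obtain ⟨c, hc, e⟩ := mk_rep_eq (n := 1) z hz
    apply hf (Projectivization.mk Qbar z hz)
    rw [e, values_smul, h, smul_zero]
  obtain ⟨A, hA⟩ : ∃ A, A = pol d 0 (by omega) f.rep := ⟨_, rfl⟩
  obtain ⟨B, hB⟩ : ∃ B, B = pol d (d + 1) le_rfl f.rep := ⟨_, rfl⟩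
  have hAd : A.natDegree ≤ d := by rw [hA]; exact pol_natDegree _ _ _ _
  have hBd : B.natDegree ≤ d := by rw [hB]; exact pol_natDegree _ _ _ _
  have hAc : A.coeff d = f.rep ⟨0 + d, by omega⟩ := by rw [hA, pol_coeff, dif_pos (by omega)]
  have hBc : B.coeff d = f.rep ⟨d + 1 + d, by omega⟩ := by rw [hB, pol_coeff, dif_pos (by omega)]
  rw [eval_resForm, ← hA, ← hB]
  constructor
  · intro hf
    have hroot : ∀ t : Qbar, A.eval t ≠ 0 ∨ B.eval t ≠ 0 := by
      intro t
      by_contra hcon
      push Not at hcon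
      refine h0 ![t, 1] (fun h => ?_) ?_ hf
      · have := congrFun h 1
        simp at this
      · rw [values_one, ← hA, ← hB, hcon.1, hcon.2]
        funext j
        fin_cases j <;> rfl
    have hinf : A.coeff d ≠ 0 ∨ B.coeff d ≠ 0 := by
      by_contra hcon
      push Not at hcon
      refine h0 ![1, 0] (fun h => ?_) ?_ hf
      · have := congrFun h 0
        simp at this
      · rw [values_inf, ← hAc, ← hBc, hcon.1, hcon.2]
        funext j
        fin_cases j <;> rfl
    have hco : IsCoprime A B := by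
      rw [Polynomial.isCoprime_iff_aeval_ne_zero_of_isAlgClosed Qbar Qbar]
      intro t
      simpa using hroot t
    have hres := Polynomial.resultant_ne_zero A B hco
    rcases hinf with h | h
    · have hdeg : A.natDegree = d := le_antisymm hAd (Polynomial.le_natDegree_of_ne_zero h)
      rw [hdeg] at hres
      have h2 := Polynomial.resultant_add_right_deg A B d B.natDegree (d - B.natDegree) le_rfl
      rw [Nat.add_sub_cancel' hBd] at h2
      rw [h2]
      exact mul_ne_zero (pow_ne_zero _ h) hres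
    · have hdeg : B.natDegree = d := le_antisymm hBd (Polynomial.le_natDegree_of_ne_zero h)
      rw [hdeg] at hres
      have h2 := Polynomial.resultant_add_left_deg A B A.natDegree d (d - A.natDegree) le_rfl
      rw [Nat.add_sub_cancel' hAd] at h2
      rw [h2]
      exact mul_ne_zero (mul_ne_zero (pow_ne_zero _ (by simp)) (pow_ne_zero _ h)) hres
  · intro hres z hz
    apply hres
    by_cases h1 : z.rep 1 = 0
    · have h2 : z.rep = z.rep 0 • ![1, 0] := by
        funext j
        fin_cases j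
        · simp
        · simp [h1]
      have h3 : z.rep 0 ≠ 0 := by
        intro h3
        apply z.rep_nonzero
        rw [h2, h3, zero_smul]
      rw [h2, values_smul, smul_eq_zero] at hz
      rcases hz with hz | hz
      · exact absurd hz (pow_ne_zero _ h3)
      · rw [values_inf, ← hAc, ← hBc] at hz
        have e1 : A.coeff d = 0 := by simpa using congrFun hz 0
        have e2 : B.coeff d = 0 := by simpa using congrFun hz 1
        refine Polynomial.resultant_eq_zero_of_lt_lt A B d d ?_ ?_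
        · refine lt_of_le_of_ne hAd fun h => ?_
          rw [← h] at e1
          have h5 : A = 0 := Polynomial.leadingCoeff_eq_zero.1 e1
          rw [h5, Polynomial.natDegree_zero] at h
          omega
        · refine lt_of_le_of_ne hBd fun h => ?_
          rw [← h] at e2
          have h5 : B = 0 := Polynomial.leadingCoeff_eq_zero.1 e2
          rw [h5, Polynomial.natDegree_zero] at h
          omega
    · have h2 : z.rep = z.rep 1 • ![z.rep 0 / z.rep 1, 1] := by
        funext j
        fin_cases j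
        · simp [mul_div_cancel₀ _ h1]
        · simp
      rw [h2, values_smul, smul_eq_zero] at hz
      rcases hz with hz | hz
      · exact absurd hz (pow_ne_zero _ h1)
      · rw [values_one, ← hA, ← hB] at hz
        have e1 : A.eval (z.rep 0 / z.rep 1) = 0 := by simpa using congrFun hz 0
        have e2 : B.eval (z.rep 0 / z.rep 1) = 0 := by simpa using congrFun hz 1
        obtain ⟨p, q, -, -, h⟩ := Polynomial.exists_mul_add_mul_eq_C_resultant (m := d) (n := d) A B hAd hBd
          (Or.inl (by omega))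
        have := congrArg (Polynomial.eval (z.rep 0 / z.rep 1)) h
        rw [Polynomial.eval_add, Polynomial.eval_mul, Polynomial.eval_mul, e1, e2, zero_mul, zero_mul,
          add_zero, Polynomial.eval_C] at this
        exact this.symm

theorem rat_quasiProjective (d : ℕ) (hd : 0 < d) : QuasiProjective (Rat d) := by
  refine ⟨{p | ∀ F ∈ (∅ : Set (MvPolynomial (Fin (2 * d + 1 + 1)) Qbar)), eval p.rep F = 0},
    {p | ∀ F ∈ ({resForm d} : Set (MvPolynomial (Fin (2 * d + 1 + 1)) Qbar)), eval p.rep F = 0},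
    ⟨∅, by simp, rfl⟩, ⟨{resForm d}, by
      rintro F hF
      rw [Set.mem_singleton_iff] at hF
      exact ⟨_, hF ▸ resForm_homog d⟩, rfl⟩, ?_⟩
  ext f
  rw [rat_iff d hd]
  simp

/-! ### The main theorem -/

theorem asymp_of {n m : ℕ} {X : Set (PP n)} (hX : QuasiProjective X) {Y : Set (PP m)} {π : X → Y}
    (hπ : IsMorphism π) (B : X → ℝ)
    (h1 : ∀ x x' : X, π x' = π x → B x ≤ height (x' : PP n))
    (h2 : ∀ (x : X) (c : ℝ), (∀ x' : X, π x' = π x → c ≤ height (x' : PP n)) → c ≤ B x) :
    Asymp (fun x : X => height (π x : PP m)) B := by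
  obtain ⟨C, hC, hup⟩ := height_morphism hX hπ
  obtain ⟨C', hC', hlow⟩ := small_point hX hπ
  refine ⟨1 / C, C', 1, C', by positivity, hC', fun x => ⟨?_, ?_⟩⟩
  · refine h2 x _ fun x' hx' => ?_
    have := hup x'
    rw [hx'] at this
    rw [sub_le_iff_le_add, one_div, inv_mul_le_iff₀ hC]
    linarith
  · obtain ⟨x', hx', hle⟩ := hlow x
    exact (h1 x x' hx').trans hle

/-- **Moduli heights and minimal heights in orbits** (Q1 and Q2).

(Q1) Let `X ⊆ ℙⁿ` and `Y ⊆ ℙᵐ` be quasi-projective varieties over `Qbar`, let the group `G` act on `X` and let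
`π : X → Y` be a surjective morphism whose fibres are the orbits of `G` (for instance a geometric quotient).
Then `h (π x) ≍ inf_{g ∈ G} h (g x)` on `X`.

(Q2) Let `d ≥ 2`, let `Y ⊆ ℙᵐ` be a quasi-projective variety and let `π : Rat_d → Y` be a surjective morphism
whose fibres are the orbits of `PGL_2 (Qbar)` (so `Y` is the moduli space `M_d` with an embedding in `ℙᵐ`).
Then `h (π f) ≍ inf h (f ^ φ)` on `Rat_d`, the infimum being over all conjugates `f ^ φ`,
`φ ∈ PGL_2 (Qbar)`, of `f`. -/
theorem result :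
    (∀ (n m : ℕ) (X : Set (PP n)) (Y : Set (PP m)), QuasiProjective X → QuasiProjective Y →
      ∀ (G : Type*) [Group G] [MulAction G X] (π : X → Y), IsMorphism π → Function.Surjective π →
        (∀ x x' : X, π x = π x' ↔ ∃ g : G, x' = g • x) →
        Asymp (fun x : X => height (π x : PP m)) (fun x : X => ⨅ g : G, height ((g • x : X) : PP n))) ∧
    (∀ (d m : ℕ) (Y : Set (PP m)), 2 ≤ d → QuasiProjective Y →
      ∀ π : Rat d → Y, IsMorphism π → Function.Surjective π →
        (∀ f g : Rat d, π f = π g ↔ Conjugate f g) →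
        Asymp (fun f : Rat d => height (π f : PP m))
          (fun f : Rat d => ⨅ g : {g : Rat d // Conjugate f g}, height (g.1 : PP (2 * d + 1)))) := by
  constructor
  · intro n m X Y hX _ G _ _ π hπ _ hfib
    refine asymp_of hX hπ _ (fun x x' hx' => ?_) fun x c hc => ?_
    · obtain ⟨g, rfl⟩ := (hfib x x').1 hx'.symm
      exact ciInf_le ⟨0, by rintro _ ⟨g, rfl⟩; exact height_nonneg _⟩ g
    · exact le_ciInf fun g => hc _ ((hfib x (g • x)).2 ⟨g, rfl⟩).symm
  · intro d m Y hd _ π hπ _ hfib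
    refine asymp_of (rat_quasiProjective d (by omega)) hπ _ (fun x x' hx' => ?_) fun x c hc => ?_
    · exact ciInf_le (f := fun g : {g : Rat d // Conjugate x g} => height (g.1 : PP (2 * d + 1)))
        ⟨0, by rintro _ ⟨g, rfl⟩; exact height_nonneg _⟩ ⟨x', (hfib x x').1 hx'.symm⟩
    · have : Nonempty {g : Rat d // Conjugate x g} := ⟨⟨x, (hfib x x).1 rfl⟩⟩
      exact le_ciInf fun g => hc _ ((hfib x g.1).2 g.2).symm

end Pool.Agent.Results.MP_216eb3_nt.MinimalHeightsH9
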